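import Pool.Agent.H.MP_57f692_ag.Main

namespace Pool.Agent.Results.MP_57f692_ag.Yes

open Polynomial Set Pool.Agent.H.MP_57f692_ag

lemma root_pow (n : ℕ) (hn : n ≠ 0) : ((2 : ℝ) ^ (1 / (n : ℝ))) ^ n = 2 := by
  rw [one_div]; exact Real.rpow_inv_natCast_pow (by norm_num) hn

lemma c2 : (C 2 : ℚ[X]) = 2 := rfl
lemma c3 : (C 3 : ℚ[X]) = 3 := rfl

lemma case1 : Pos (Icc 0 ((2 : ℝ) ^ (1 / 3 : ℝ))) = Pre ![X, 2 - X ^ 3] := by
  set β : ℝ := (2 : ℝ) ^ (1 / 3 : ℝ)
  have hβ : β ^ 3 = 2 := by simpa [β] using root_pow 3 (by norm_num)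
  have hβ0 : 0 < β := by positivity
  have g0 : (X : ℚ[X]) ∈ Pre ![X, 2 - X ^ 3] := Pre_gen 0
  have g1 : (2 - X ^ 3 : ℚ[X]) ∈ Pre ![X, 2 - X ^ 3] := Pre_gen 1
  have hN : Bd ![X, 2 - X ^ 3] 2 X := by
    refine ⟨Pre_add (Pre_C (by norm_num)) g0, ?_⟩
    convert Pre_mul (Pre_C (a := 1 / 3) (by norm_num)) (Pre_add (Pre_add g1 (Pre_mul
      (Pre_sq (X - 1)) (Pre_add g0 (Pre_C (a := 2) (by norm_num))))) (Pre_C (a := 2) (by norm_num)))
      using 1
    have : C (1 / 3 : ℚ) * 3 = (1 : ℚ[X]) := by rw [← c3, ← C_mul]; norm_num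
    rw [c2]; linear_combination (X - 2) * this
  refine pos_eq hβ0 (fun i t ht => ?_) hN (fun r hr => ?_) (fun r hr => ?_)
    ⟨0, by simp, fun f hf => ?_⟩ ⟨1, ?_, fun f hf => ?_⟩
  · fin_cases i
    · simpa using ht.1
    · have := pow_le_pow_left₀ ht.1 ht.2 3
      simp [map_ofNat]; linarith
  · rw [sub_eq_add_neg X (C r), ← C_neg]
    exact Pre_add g0 (Pre_C (by have : r < 0 := by exact_mod_cast hr
                                linarith))
  · obtain ⟨u, u1, u2⟩ := exists_rat_btwn hr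
    have u0 : 0 < u := by exact_mod_cast hβ0.trans u1
    have u3 : 2 ≤ u ^ 3 := by
      have := pow_le_pow_left₀ hβ0.le u1.le 3
      rw [hβ] at this; exact_mod_cast this
    convert cancel hN (w := C (u ^ 2) + (C u * X + X ^ 2)) (h := C u - X) (η := u ^ 2)
      (by positivity) (by simpa using Pre_add (Pre_mul (Pre_C u0.le) g0) (Pre_sq X))
      (by
        convert Pre_add (Pre_C (sub_nonneg.2 u3)) g1 using 1
        simp only [C_sub, C_pow, c2]; ring)
      (ε := r - u) (by exact_mod_cast sub_pos.2 u2) using 1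
    rw [C_sub]; ring
  · simpa using minpoly.dvd ℚ (0 : ℝ) hf
  · have : (2 - X ^ 3 : ℚ[X]).natDegree = 3 := by compute_degree!
    simp [this]
  · have := dvd_of_root 2 Nat.prime_two 3 (by norm_num) (by simpa using hβ) f hf
    rw [← neg_dvd] at this
    simpa [c2] using this

lemma case2 : Pos (Icc (√2) (√3)) = Pre ![X, X ^ 2 - 2, 3 - X ^ 2] := by
  have h2 : (√2) ^ 2 = 2 := Real.sq_sqrt (by norm_num)
  have h3 : (√3) ^ 2 = 3 := Real.sq_sqrt (by norm_num)
  have p2 : 0 < √2 := by positivity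
  have p3 : 0 < √3 := by positivity
  have g0 : (X : ℚ[X]) ∈ Pre ![X, X ^ 2 - 2, 3 - X ^ 2] := Pre_gen 0
  have g1 : (X ^ 2 - 2 : ℚ[X]) ∈ Pre ![X, X ^ 2 - 2, 3 - X ^ 2] := Pre_gen 1
  have g2 : (3 - X ^ 2 : ℚ[X]) ∈ Pre ![X, X ^ 2 - 2, 3 - X ^ 2] := Pre_gen 2
  have hN : Bd ![X, X ^ 2 - 2, 3 - X ^ 2] 2 X := by
    refine ⟨Pre_add (Pre_C (by norm_num)) g0, ?_⟩
    convert Pre_mul (Pre_C (a := 1 / 2) (by norm_num)) (Pre_add g2 (Pre_sq (X - 1))) using 1
    have : C (1 / 2 : ℚ) * 2 = (1 : ℚ[X]) := by rw [← c2, ← C_mul]; norm_num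
    rw [c2]; linear_combination (X - 2) * this
  refine pos_eq (Real.sqrt_lt_sqrt (by norm_num) (by norm_num)) (fun i t ht => ?_) hN
    (fun r hr => ?_) (fun r hr => ?_) ⟨1, ?_, fun f hf => ?_⟩ ⟨2, ?_, fun f hf => ?_⟩
  · fin_cases i
    · simpa using p2.le.trans ht.1
    · have := pow_le_pow_left₀ p2.le ht.1 2
      simp [map_ofNat]; linarith
    · have := pow_le_pow_left₀ (p2.le.trans ht.1) ht.2 2
      simp [map_ofNat]; linarith
  · obtain ⟨u, u1, u2⟩ := exists_rat_btwn (max_lt hr p2)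
    rw [max_lt_iff] at u1
    have u0 : 0 < u := by exact_mod_cast u1.2
    have u3 : u ^ 2 ≤ 2 := by
      have := pow_le_pow_left₀ u1.2.le u2.le 2
      rw [h2] at this; exact_mod_cast this
    convert cancel hN (w := X + C u) (h := X - C u) (η := u) u0 (by simpa using g0)
      (by
        convert Pre_add (Pre_C (sub_nonneg.2 u3)) g1 using 1
        simp only [C_sub, C_pow, c2]; ring)
      (ε := u - r) (by exact_mod_cast sub_pos.2 u1.1) using 1
    rw [C_sub]; ring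
  · obtain ⟨u, u1, u2⟩ := exists_rat_btwn hr
    have u0 : 0 < u := by exact_mod_cast p3.trans u1
    have u3 : 3 ≤ u ^ 2 := by
      have := pow_le_pow_left₀ p3.le u1.le 2
      rw [h3] at this; exact_mod_cast this
    convert cancel hN (w := X + C u) (h := C u - X) (η := u) u0 (by simpa using g0)
      (by
        convert Pre_add (Pre_C (sub_nonneg.2 u3)) g2 using 1
        simp only [C_sub, C_pow, c3]; ring)
      (ε := r - u) (by exact_mod_cast sub_pos.2 u2) using 1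
    rw [C_sub]; ring
  · have : (X ^ 2 - 2 : ℚ[X]).natDegree = 2 := by compute_degree!
    simp [this]
  · simpa [c2] using dvd_of_root 2 Nat.prime_two 2 (by norm_num) (by simp) f hf
  · have : (3 - X ^ 2 : ℚ[X]).natDegree = 2 := by compute_degree!
    simp [this]
  · have := dvd_of_root 3 Nat.prime_three 2 (by norm_num) (by simp) f hf
    rw [← neg_dvd] at this
    simpa [c3] using this

lemma case3 : Pos (Icc (-(2 : ℝ) ^ (1 / 4 : ℝ)) ((2 : ℝ) ^ (1 / 4 : ℝ))) = Pre ![2 - X ^ 4] := by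
  set β : ℝ := (2 : ℝ) ^ (1 / 4 : ℝ)
  have hβ : β ^ 4 = 2 := by simpa [β] using root_pow 4 (by norm_num)
  have hβ0 : 0 < β := by positivity
  have g0 : (2 - X ^ 4 : ℚ[X]) ∈ Pre ![2 - X ^ 4] := Pre_gen 0
  have h4 : C (1 / 4 : ℚ) * 4 = (1 : ℚ[X]) := by rw [← map_ofNat C, ← C_mul]; norm_num
  have hq := Pre_add (Pre_mul (Pre_C (a := 2) (by norm_num)) (Pre_add g0 (Pre_sq (X ^ 2 - 1))))
    (Pre_C (a := 1) (by norm_num))
  have hN : Bd ![2 - X ^ 4] 2 X := by
    constructor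
    · convert Pre_mul (Pre_C (a := 1 / 4) (by norm_num)) (Pre_add hq (Pre_sq (2 * X + 1))) using 1
      rw [c2, C_1]; linear_combination (-X - 2) * h4
    · convert Pre_mul (Pre_C (a := 1 / 4) (by norm_num)) (Pre_add hq (Pre_sq (2 * X - 1))) using 1
      rw [c2, C_1]; linear_combination (X - 2) * h4
  have key : ∀ r : ℚ, β < r → Bd ![2 - X ^ 4] r X := by
    intro r hr
    obtain ⟨u, u1, u2⟩ := exists_rat_btwn hr
    have u0 : 0 < u := by exact_mod_cast hβ0.trans u1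
    have u2' : u < r := by exact_mod_cast u2
    have u3 : 2 ≤ u ^ 4 := by
      have := pow_le_pow_left₀ hβ0.le u1.le 4
      rw [hβ] at this; exact_mod_cast this
    have k := cancel hN (w := X ^ 2 + C (u ^ 2)) (h := C (u ^ 2) - X ^ 2) (η := u ^ 2)
      (by positivity) (by simpa using Pre_sq X)
      (by
        convert Pre_add (Pre_C (sub_nonneg.2 u3)) g0 using 1
        simp only [C_sub, C_pow, c2]; ring)
      (ε := r ^ 2 - u ^ 2) (by nlinarith)
    have r0 : 0 < r := u0.trans u2'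
    have e : C (2 * r)⁻¹ * (2 * C r) = (1 : ℚ[X]) := by
      rw [← c2, ← C_mul, ← C_mul, inv_mul_cancel₀ (by positivity), C_1]
    constructor
    · convert Pre_mul (Pre_C (a := (2 * r)⁻¹) (by positivity)) (Pre_add k (Pre_sq (C r + X))) using 1
      simp only [C_sub, C_pow]; linear_combination (-C r - X) * e
    · convert Pre_mul (Pre_C (a := (2 * r)⁻¹) (by positivity)) (Pre_add k (Pre_sq (C r - X))) using 1
      simp only [C_sub, C_pow]; linear_combination (X - C r) * e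
  have hd : (2 - X ^ 4 : ℚ[X]).natDegree = 4 := by compute_degree!
  have hdv : ∀ t : ℝ, t ^ 4 = 2 → ∀ f : ℚ[X], aeval t f = 0 → 2 - X ^ 4 ∣ f := by
    intro t ht f hf
    have := dvd_of_root 2 Nat.prime_two 4 (by norm_num) (by simpa using ht) f hf
    rw [← neg_dvd] at this
    simpa [c2] using this
  refine pos_eq (by linarith) (fun i t ht => ?_) hN (fun r hr => ?_) (fun r hr => (key r hr).2)
    ⟨0, by simp [hd], hdv _ (by rw [← hβ]; ring)⟩ ⟨0, by simp [hd], hdv _ hβ⟩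
  · fin_cases i
    have := pow_le_pow_left₀ (abs_nonneg t) (abs_le.2 ht) 4
    rw [pow_abs, hβ] at this
    simp [map_ofNat]; linarith [le_abs_self (t ^ 4)]
  · convert (key (-r) (by push_cast; linarith)).1 using 1
    rw [C_neg]; ring

theorem result :
    Pos (Icc 0 ((2 : ℝ) ^ (1 / 3 : ℝ))) = Pre ![X, 2 - X ^ 3] ∧
    Pos (Icc (√2) (√3)) = Pre ![X, X ^ 2 - 2, 3 - X ^ 2] ∧
    Pos (Icc (-(2 : ℝ) ^ (1 / 4 : ℝ)) ((2 : ℝ) ^ (1 / 4 : ℝ))) = Pre ![2 - X ^ 4] ∧
    X - 1 ∈ Pre ![X, X ^ 2 - 2, 3 - X ^ 2] := by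
  refine ⟨case1, case2, case3, ?_⟩
  rw [← case2]
  intro t ht
  have := Real.one_lt_sqrt_two.le.trans ht.1
  simpa using this

end Pool.Agent.Results.MP_57f692_ag.Yes
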